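import Pool.Agent.Helper64.SPX.Spec2

/-!
# SPX, part V1: finite representation of Voronoi cells
-/

set_option autoImplicit false

open MeasureTheory Filter Topology Set
open scoped InnerProductSpace ENNReal

namespace Pool.Agent.Helper74.SPX.V1

open Pool.Agent.Helper64.SPX

variable {ι : Type} [Fintype ι]

theorem lat_eq (b : Module.Basis ι ℝ (E ι)) :
    lat b = (Submodule.span ℤ (Set.range b) : Set (E ι)) := by
  ext x
  rw [SetLike.mem_coe, Submodule.mem_span_range_iff_exists_fun]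
  constructor
  · rintro ⟨c, rfl⟩
    exact ⟨c, Finset.sum_congr rfl fun i _ => (Int.cast_smul_eq_zsmul ℝ _ _).symm⟩
  · rintro ⟨c, rfl⟩
    exact ⟨c, Finset.sum_congr rfl fun i _ => (Int.cast_smul_eq_zsmul ℝ _ _).symm⟩

theorem norm_iff (x l : E ι) : ‖x‖ ≤ ‖x - l‖ ↔ ⟪l, x⟫_ℝ ≤ ‖l‖ ^ 2 / 2 := by
  have h1 := norm_sub_sq_real x l
  rw [← sq_le_sq₀ (norm_nonneg _) (norm_nonneg _), h1, real_inner_comm]
  constructor <;> intro h <;> linarith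

theorem norm_iff' (x l : E ι) : ‖x - l‖ = ‖x‖ ↔ ⟪l, x⟫_ℝ = ‖l‖ ^ 2 / 2 := by
  have h1 := norm_sub_sq_real x l
  rw [← sq_eq_sq₀ (norm_nonneg _) (norm_nonneg _), h1, real_inner_comm]
  constructor <;> intro h <;> linarith

theorem vor_bdd (b : Module.Basis ι ℝ (E ι)) {x : E ι} (hx : x ∈ vor b) :
    ‖x‖ ≤ ∑ i, ‖b i‖ := by
  have h1 : ‖x‖ ≤ ‖x - (ZSpan.floor b x : E ι)‖ := by
    refine hx _ ?_
    rw [lat_eq]
    exact (ZSpan.floor b x).2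
  exact h1.trans (ZSpan.norm_fract_le b x)

theorem fin (b : Module.Basis ι ℝ (E ι)) (R : ℝ) : {l | l ∈ lat b ∧ ‖l‖ ≤ R}.Finite := by
  have h := ZSpan.setFinite_inter b (s := Metric.closedBall (0 : E ι) R) Metric.isBounded_closedBall
  refine h.subset ?_
  rintro l ⟨h1, h2⟩
  rw [lat_eq] at h1
  exact ⟨mem_closedBall_zero_iff.2 h2, h1⟩

/-- the relevant vectors -/
def Rel (b : Module.Basis ι ℝ (E ι)) : Set (E ι) :=
  {l | l ∈ lat b ∧ l ≠ 0 ∧ ∃ x ∈ vor b, ⟪l, x⟫_ℝ = ‖l‖ ^ 2 / 2}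

theorem rel_fin (b : Module.Basis ι ℝ (E ι)) : (Rel b).Finite := by
  refine (fin b (2 * ∑ i, ‖b i‖)).subset ?_
  rintro l ⟨h1, h2, x, hx, hl⟩
  refine ⟨h1, ?_⟩
  have h3 := real_inner_le_norm l x
  have h4 := vor_bdd b hx
  have h5 : 0 < ‖l‖ := norm_pos_iff.2 h2
  rw [hl] at h3
  have h6 : ‖l‖ * (‖l‖ / 2) ≤ ‖l‖ * ‖x‖ := by nlinarith
  have h7 := le_of_mul_le_mul_left h6 h5
  linarith

theorem mem_of_rel (b : Module.Basis ι ℝ (E ι)) {x : E ι}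
    (hx : ∀ l ∈ Rel b, ⟪l, x⟫_ℝ ≤ ‖l‖ ^ 2 / 2) : x ∈ vor b := by
  by_contra hcon
  have h1 : ∃ l ∈ lat b, ¬ ‖x‖ ≤ ‖x - l‖ := by
    by_contra h
    push Not at h
    exact hcon fun l hl => h l hl
  obtain ⟨l1, hl1, hl1'⟩ := h1
  set F : Set (E ι) := {l | (l ∈ lat b ∧ ‖l‖ ≤ 2 * ‖x‖) ∧ ‖l‖ ^ 2 / 2 < ⟪l, x⟫_ℝ} with hF
  have hFfin : F.Finite := (fin b (2 * ‖x‖)).subset fun l hl => hl.1
  have hmemF : ∀ l ∈ lat b, ‖l‖ ^ 2 / 2 < ⟪l, x⟫_ℝ → l ∈ F := by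
    intro l hl h
    refine ⟨⟨hl, ?_⟩, h⟩
    have h2 := real_inner_le_norm l x
    rcases (norm_nonneg l).eq_or_lt with h0 | h0
    · rw [← h0]; positivity
    · have h3 : ‖l‖ * (‖l‖ / 2) ≤ ‖l‖ * ‖x‖ := by nlinarith
      have := le_of_mul_le_mul_left h3 h0
      linarith
  have hl1F : l1 ∈ F := hmemF l1 hl1 (by rw [norm_iff] at hl1'; exact not_le.1 hl1')
  have hF0 : ∀ l ∈ F, 0 < ‖l‖ := by
    intro l hl
    rw [norm_pos_iff]
    rintro rfl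
    have := hl.2
    rw [inner_zero_left, norm_zero] at this
    norm_num at this
  obtain ⟨l0, hl0, hmax⟩ := Set.exists_max_image F (fun l => ⟪l, x⟫_ℝ / (‖l‖ ^ 2 / 2)) hFfin
    ⟨l1, hl1F⟩
  have hn0 := hF0 l0 hl0
  have hpos : 0 < ‖l0‖ ^ 2 / 2 := by positivity
  have hin : 0 < ⟪l0, x⟫_ℝ := hpos.trans hl0.2
  set ρ := ⟪l0, x⟫_ℝ / (‖l0‖ ^ 2 / 2) with hρ
  have hρ1 : 1 < ρ := by rw [hρ, one_lt_div hpos]; exact hl0.2
  have hρ0 : 0 < ρ := one_pos.trans hρ1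
  have hy : ρ⁻¹ • x ∈ vor b := by
    intro l hl
    rw [norm_iff, inner_smul_right]
    by_cases h : ‖l‖ ^ 2 / 2 < ⟪l, x⟫_ℝ
    · have hlF := hmemF l hl h
      have h2 : 0 < ‖l‖ ^ 2 / 2 := by have := hF0 l hlF; positivity
      have h3 : ⟪l, x⟫_ℝ / (‖l‖ ^ 2 / 2) ≤ ρ := hmax l hlF
      rw [div_le_iff₀ h2] at h3
      rw [inv_mul_le_iff₀ hρ0]
      exact h3
    · push Not at h
      have h2 : (0 : ℝ) ≤ ‖l‖ ^ 2 / 2 := by positivity
      rw [inv_mul_le_iff₀ hρ0]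
      nlinarith
  have hrel : l0 ∈ Rel b := by
    refine ⟨hl0.1.1, norm_pos_iff.1 hn0, ρ⁻¹ • x, hy, ?_⟩
    rw [inner_smul_right, hρ, inv_div]
    field_simp
  have := hx l0 hrel
  exact absurd hl0.2 (not_lt.2 this)

theorem main : S_V1 := by
  intro ι _ b
  classical
  have hfin := rel_fin b
  set e := hfin.toFinset.equivFin with he
  let Q : HP ι := ⟨hfin.toFinset.card, fun i => ((e.symm i : hfin.toFinset) : E ι),
    fun i => ‖((e.symm i : hfin.toFinset) : E ι)‖ ^ 2 / 2⟩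
  have hu : ∀ i, Q.u i ∈ Rel b := fun i => hfin.mem_toFinset.1 (e.symm i).2
  have hh : ∀ i, Q.h i = ‖Q.u i‖ ^ 2 / 2 := fun i => rfl
  have hsurj : ∀ l ∈ Rel b, ∃ i, Q.u i = l := by
    intro l hl
    refine ⟨e ⟨l, hfin.mem_toFinset.2 hl⟩, ?_⟩
    show ((e.symm (e ⟨l, hfin.mem_toFinset.2 hl⟩) : hfin.toFinset) : E ι) = l
    rw [Equiv.symm_apply_apply]
  have hbody : Q.body = vor b := by
    ext x
    constructor
    · intro hx
      refine mem_of_rel b fun l hl => ?_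
      obtain ⟨i, rfl⟩ := hsurj l hl
      exact hx i
    · intro hx i
      have := hx (Q.u i) (hu i).1
      rw [norm_iff] at this
      exact this
  refine ⟨Q, hbody, ⟨?_, fun i => (hu i).2.1, 0, fun i => ?_⟩, ?_, fun i => ?_, ?_⟩
  · rw [hbody]
    refine (Metric.isBounded_closedBall (x := (0 : E ι)) (r := ∑ i, ‖b i‖)).subset fun x hx => ?_
    exact mem_closedBall_zero_iff.2 (vor_bdd b hx)
  · rw [inner_zero_right, hh]
    have := norm_pos_iff.2 (hu i).2.1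
    positivity
  · intro i j hij
    have : (e.symm i : hfin.toFinset) = e.symm j := Subtype.ext hij
    exact e.symm.injective this
  · exact ⟨(hu i).1, (hu i).2.1, hh i, (hu i).2.2⟩
  · rintro l hl hl0 ⟨x, hx, hxl⟩
    exact hsurj l ⟨hl, hl0, x, hx, (norm_iff' x l).1 hxl⟩

end Pool.Agent.Helper74.SPX.V1
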